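import Pool.Agent.Lib_MP_b7f1cf_an.Final
import Pool.Agent.Lib_MP_b7f1cf_an.Rad
import Pool.Agent.Lib_MP_b7f1cf_an.Selection
import Pool.Agent.Lib_MP_b7f1cf_an.Interp
import Pool.Agent.Lib_MP_b7f1cf_an.GelfandRaikov

/-!
# Nilpotent elements are not dense in `Rad L¹(G) / L¹(G)`

For every non-discrete locally compact abelian group `G` (written multiplicatively) there is a
measure in `Rad L¹(G)` which is not in the norm closure of the set of measures that are nilpotent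
modulo `L¹(G)`.

The Banach space `M(G)` of bounded regular complex Borel measures on `G`, with the total variation
norm, is realised, by the Riesz representation theorem, as the dual `C₀(G, ℂ) →L[ℂ] ℂ` of the space
of continuous functions on `G` vanishing at infinity (with the dual norm).
-/

set_option autoImplicit false

universe u

open MeasureTheory Filter Topology
open scoped ZeroAtInfty

namespace Pool.Agent.Results.MP_b7f1cf_an.NilpotentsNotDense

section definitions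

variable {G : Type u} [CommGroup G] [TopologicalSpace G] [IsTopologicalGroup G]

theorem translate_continuous (x : G) (f : C₀(G, ℂ)) : Continuous fun y => f (x * y) :=
  (MPb7f1cf.tr x f).continuous_toFun

theorem translate_zero_at_infty (x : G) (f : C₀(G, ℂ)) :
    Tendsto (fun y => f (x * y)) (cocompact G) (𝓝 0) :=
  (MPb7f1cf.tr x f).zero_at_infty'

/-- The translate `y ↦ f (x * y)` of `f ∈ C₀(G)`. -/
noncomputable def translate (x : G) (f : C₀(G, ℂ)) : C₀(G, ℂ) :=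
  ⟨⟨fun y => f (x * y), translate_continuous x f⟩, translate_zero_at_infty x f⟩

variable [LocallyCompactSpace G] [T2Space G]

theorem smear_continuous (ν : C₀(G, ℂ) →L[ℂ] ℂ) (f : C₀(G, ℂ)) :
    Continuous fun x => ν (translate x f) :=
  (MPb7f1cf.MG.convFun ν f).continuous_toFun

theorem smear_zero_at_infty (ν : C₀(G, ℂ) →L[ℂ] ℂ) (f : C₀(G, ℂ)) :
    Tendsto (fun x => ν (translate x f)) (cocompact G) (𝓝 0) :=
  (MPb7f1cf.MG.convFun ν f).zero_at_infty'

/-- The function `x ↦ ∫ f (x * y) dν(y)`, which is again in `C₀(G)`. -/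
noncomputable def smear (ν : C₀(G, ℂ) →L[ℂ] ℂ) (f : C₀(G, ℂ)) : C₀(G, ℂ) :=
  ⟨⟨fun x => ν (translate x f), smear_continuous ν f⟩, smear_zero_at_infty ν f⟩

theorem conv_add (μ ν : C₀(G, ℂ) →L[ℂ] ℂ) (f g : C₀(G, ℂ)) :
    μ (smear ν (f + g)) = μ (smear ν f) + μ (smear ν g) :=
  (MPb7f1cf.MG.conv μ ν : C₀(G, ℂ) →L[ℂ] ℂ).map_add' f g

theorem conv_smul (μ ν : C₀(G, ℂ) →L[ℂ] ℂ) (a : ℂ) (f : C₀(G, ℂ)) :
    μ (smear ν (a • f)) = a • μ (smear ν f) :=
  (MPb7f1cf.MG.conv μ ν : C₀(G, ℂ) →L[ℂ] ℂ).map_smul' a f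

theorem conv_continuous (μ ν : C₀(G, ℂ) →L[ℂ] ℂ) : Continuous fun f => μ (smear ν f) :=
  (MPb7f1cf.MG.conv μ ν : C₀(G, ℂ) →L[ℂ] ℂ).cont

/-- The convolution `μ * ν` of two measures: `∫ f d(μ * ν) = ∫ ∫ f (x * y) dν(y) dμ(x)`. -/
noncomputable def conv (μ ν : C₀(G, ℂ) →L[ℂ] ℂ) : C₀(G, ℂ) →L[ℂ] ℂ :=
  ⟨⟨⟨fun f => μ (smear ν f), conv_add μ ν⟩, conv_smul μ ν⟩, conv_continuous μ ν⟩

/-- The convolution powers: `convPow ν n` is the `(n + 1)`-fold convolution power of `ν`. -/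
noncomputable def convPow (ν : C₀(G, ℂ) →L[ℂ] ℂ) : ℕ → (C₀(G, ℂ) →L[ℂ] ℂ)
  | 0 => ν
  | n + 1 => conv (convPow ν n) ν

variable (G)
variable [MeasurableSpace G] [BorelSpace G]

/-- `L¹(G)` inside `M(G)`: the measures `w dx` with `w` integrable with respect to Haar measure. -/
def L1 : Set (C₀(G, ℂ) →L[ℂ] ℂ) :=
  {μ | ∃ w : G → ℂ, Integrable w Measure.haar ∧
    ∀ f : C₀(G, ℂ), μ f = ∫ x, f x * w x ∂Measure.haar}

/-- The hull of `L¹(G)`: all nonzero multiplicative linear functionals on `M(G)` which vanish on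
`L¹(G)`. -/
def hull : Set ((C₀(G, ℂ) →L[ℂ] ℂ) →ₗ[ℂ] ℂ) :=
  {φ | φ ≠ 0 ∧ (∀ μ ν : C₀(G, ℂ) →L[ℂ] ℂ, φ (conv μ ν) = φ μ * φ ν) ∧ ∀ f ∈ L1 G, φ f = 0}

/-- `Rad L¹(G)`, the kernel of the hull of `L¹(G)`. -/
def radL1 : Set (C₀(G, ℂ) →L[ℂ] ℂ) := {μ | ∀ φ ∈ hull G, φ μ = 0}

/-- The measures which are nilpotent modulo `L¹(G)`: some convolution power is in `L¹(G)`. -/
def nilModL1 : Set (C₀(G, ℂ) →L[ℂ] ℂ) := {ν | ∃ n : ℕ, convPow ν n ∈ L1 G}

end definitions

section proof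

variable {G : Type u} [CommGroup G] [TopologicalSpace G] [IsTopologicalGroup G]
    [LocallyCompactSpace G] [T2Space G]

open MPb7f1cf

theorem conv_eq (μ ν : MG G) : conv μ ν = μ * ν := rfl

theorem convPow_eq (ν : MG G) (n : ℕ) : convPow ν n = ν ^ (n + 1) := by
  induction n with
  | zero => rw [zero_add, pow_one]; rfl
  | succ n ih => rw [pow_succ, ← ih]; rfl

variable [MeasurableSpace G] [BorelSpace G]

theorem L1_eq : L1 G = MPb7f1cf.L1 G := rfl

/-- **Main result.** For every non-discrete locally compact abelian group `G` there is a measure in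
`Rad L¹(G)` which is not in the norm closure of the set of measures that are nilpotent modulo
`L¹(G)`. -/
theorem result (G : Type u) [CommGroup G] [TopologicalSpace G] [IsTopologicalGroup G]
    [LocallyCompactSpace G] [T2Space G] [MeasurableSpace G] [BorelSpace G]
    (hG : ¬ DiscreteTopology G) :
    ∃ μ ∈ radL1 G, μ ∉ closure (nilModL1 G) := by
  choose n hn1 hn2 using fun j : ℕ => MPb7f1cf.interp (Kc j * (j - 1) + 1)
  obtain ⟨f₀, χ, hcs, h0, h1, hpos, hnt, horth⟩ :=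
    B7F1CF.Selection.selection_of_exists_character
      (fun Q _ _ _ _ _ x hx => MPb7f1cf.exists_character x hx) hG 4
  let X₀ : IndepSys G ℕ := ⟨f₀, χ, hcs, h0, h1, hpos, hnt, horth⟩
  let X : IndepSys G (Idx n) := X₀.reindex ⟨Encodable.encode, Encodable.encode_injective⟩
  refine ⟨muRoot X, fun φ hφ => ?_, fun hcl => ?_⟩
  · obtain ⟨hφ0, hφm, hφL⟩ := hφ
    let ψ : MG G →ₗ[ℂ] ℂ := φ
    have hψm : ∀ μ ν : MG G, ψ (μ * ν) = ψ μ * ψ ν := hφm
    have hψ1 : ψ 1 = 1 := by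
      obtain ⟨μ, hμ⟩ : ∃ μ : MG G, ψ μ ≠ 0 := by
        by_contra hcon
        push Not at hcon
        exact hφ0 (LinearMap.ext hcon)
      have h2 := hψm 1 μ
      rw [one_mul] at h2
      exact mul_right_cancel₀ hμ (by rw [one_mul]; exact h2.symm)
    exact muRoot_rad X (AlgHom.ofLinearMap ψ hψ1 hψm) hφL
  · obtain ⟨ν, ⟨N, hN⟩, hd⟩ :=
      (Metric.mem_closure_iff (α := C₀(G, ℂ) →L[ℂ] ℂ)).1 hcl (1 / 4) (by norm_num)
    let ν' : MG G := ν
    have hN' : ν' ^ (N + 1) ∈ MPb7f1cf.L1 G := by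
      rw [← convPow_eq]; exact hN
    have h2 := muRoot_far X hn2 hN'
    have h3 : dist (muRoot X : MG G) ν' < 1 / 4 := hd
    rw [dist_comm, dist_eq_norm] at h3
    exact absurd h3 (not_lt.2 h2.le)

end proof

end Pool.Agent.Results.MP_b7f1cf_an.NilpotentsNotDense
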